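import Mathlib

/-! Kruskal's theorem for binary trees with labels in a well-quasi-order. -/

namespace H215_GVAS

/-- Binary trees with labels at the inner nodes. -/
inductive BT (L : Type) : Type
  | leaf : BT L
  | node (l : L) (a b : BT L) : BT L

namespace BT

variable {L : Type}

/-- Number of inner nodes. -/
def size : BT L → ℕ
  | leaf => 0
  | node _ a b => a.size + b.size + 1

/-- All labels lie in `s`. -/
def All (s : Set L) : BT L → Prop
  | leaf => True
  | node l a b => l ∈ s ∧ a.All s ∧ b.All s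

end BT

open BT

/-- Homeomorphic embedding of labelled binary trees. -/
inductive Emb {L : Type} (r : L → L → Prop) : BT L → BT L → Prop
  | leaf (t : BT L) : Emb r BT.leaf t
  | hom {l l' : L} {a a' b b' : BT L} : r l l' → Emb r a a' → Emb r b b' →
      Emb r (BT.node l a b) (BT.node l' a' b')
  | left {t a' b' : BT L} {l' : L} : Emb r t a' → Emb r t (BT.node l' a' b')
  | right {t a' b' : BT L} {l' : L} : Emb r t b' → Emb r t (BT.node l' a' b')

theorem Emb.refl {L : Type} {r : L → L → Prop} (hr : ∀ l, r l l) (t : BT L) : Emb r t t := by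
  induction t with
  | leaf => exact Emb.leaf _
  | node l a b iha ihb => exact Emb.hom (hr l) iha ihb

theorem Emb.trans {L : Type} {r : L → L → Prop} (hr : ∀ l₁ l₂ l₃, r l₁ l₂ → r l₂ l₃ → r l₁ l₃)
    {t u v : BT L} (h1 : Emb r t u) (h2 : Emb r u v) : Emb r t v := by
  induction h2 generalizing t with
  | leaf v =>
    cases h1
    exact Emb.leaf _
  | hom hl ha hb iha ihb =>
    cases h1 with
    | leaf => exact Emb.leaf _
    | hom hl' ha' hb' => exact Emb.hom (hr _ _ _ hl' hl) (iha ha') (ihb hb')
    | left h => exact Emb.left (iha h)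
    | right h => exact Emb.right (ihb h)
  | left _ ih => exact Emb.left (ih h1)
  | right _ ih => exact Emb.right (ih h1)

theorem kruskal {L : Type} (r : L → L → Prop) (hrefl : ∀ l, r l l)
    (htrans : ∀ l₁ l₂ l₃, r l₁ l₂ → r l₂ l₃ → r l₁ l₃) (s : Set L)
    (hs : s.PartiallyWellOrderedOn r) :
    {t : BT L | t.All s}.PartiallyWellOrderedOn (Emb r) := by
  haveI : IsPreorder L r := { refl := hrefl, trans := htrans }
  haveI : IsPreorder (BT L) (Emb r) :=
    { refl := Emb.refl hrefl, trans := fun _ _ _ => Emb.trans htrans }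
  rw [Set.PartiallyWellOrderedOn.iff_not_exists_isMinBadSeq BT.size]
  rintro ⟨f, hf1, hf2⟩
  have hnode : ∀ n, ∃ l a b, f n = BT.node l a b := by
    intro n
    cases h : f n with
    | leaf =>
      exact absurd (by rw [h]; exact Emb.leaf _) (hf1.2 n (n + 1) (Nat.lt_succ_self n))
    | node l a b => exact ⟨l, a, b, rfl⟩
  choose l a b hlab using hnode
  have hall : ∀ n, l n ∈ s ∧ (a n).All s ∧ (b n).All s := by
    intro n
    have := hf1.1 n
    rw [hlab n] at this
    exact this
  have key : ∀ c : ℕ → BT L, (∀ n, (c n).All s) → (∀ n, (c n).size < (f n).size) →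
      (∀ n t, Emb r t (c n) → Emb r t (f n)) →
      (Set.range c).PartiallyWellOrderedOn (Emb r) := by
    intro c hc hsz hemb
    rw [Set.PartiallyWellOrderedOn.iff_forall_not_isBadSeq]
    rintro g ⟨hg1, hg2⟩
    choose φ hφ using hg1
    obtain ⟨k0, hk0⟩ : ∃ k0, ∀ k, φ k0 ≤ φ k := by
      obtain ⟨n, ⟨k0, hk0⟩, hmin⟩ := WellFounded.has_min Nat.lt_wfRel.wf (Set.range φ) ⟨φ 0, 0, rfl⟩
      refine ⟨k0, fun k => ?_⟩
      rw [hk0]
      exact not_lt.mp (hmin (φ k) ⟨k, rfl⟩)
    refine hf2 (φ k0) (fun n => if n < φ k0 then f n else g (k0 + (n - φ k0))) ?_ ?_ ⟨?_, ?_⟩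
    · intro m hm
      simp [hm]
    · simp only [lt_irrefl, if_false, Nat.sub_self, Nat.add_zero]
      rw [← hφ k0]
      exact hsz _
    · intro n
      by_cases hn : n < φ k0
      · simp only [hn, if_true]
        exact hf1.1 n
      · simp only [hn, if_false]
        rw [← hφ]
        exact hc _
    · intro m n hmn
      by_cases hn : n < φ k0
      · have hm : m < φ k0 := lt_trans hmn hn
        simp only [hn, hm, if_true]
        exact hf1.2 m n hmn
      · by_cases hm : m < φ k0
        · simp only [hn, hm, if_true, if_false]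
          rw [← hφ]
          intro h
          exact hf1.2 m (φ (k0 + (n - φ k0))) (lt_of_lt_of_le hm (hk0 _)) (hemb _ _ h)
        · simp only [hn, hm, if_false]
          exact hg2 _ _ (by omega)
  have hA := key a (fun n => (hall n).2.1)
    (fun n => by rw [hlab n]; simp only [BT.size]; omega)
    (fun n t h => by rw [hlab n]; exact Emb.left h)
  have hB := key b (fun n => (hall n).2.2)
    (fun n => by rw [hlab n]; simp only [BT.size]; omega)
    (fun n t h => by rw [hlab n]; exact Emb.right h)
  obtain ⟨g1, h1⟩ := hs.exists_monotone_subseq (f := l) (fun n => (hall n).1)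
  obtain ⟨g2, h2⟩ := hA.exists_monotone_subseq (f := fun n => a (g1 n)) (fun n => ⟨_, rfl⟩)
  obtain ⟨m, n, hmn, h3⟩ := hB.exists_lt (f := fun n => b (g1 (g2 n))) (fun n => ⟨_, rfl⟩)
  refine hf1.2 (g1 (g2 m)) (g1 (g2 n)) (g1.strictMono (g2.strictMono hmn)) ?_
  rw [hlab (g1 (g2 m)), hlab (g1 (g2 n))]
  exact Emb.hom (h1 _ _ (g2.monotone hmn.le)) (h2 _ _ hmn.le) h3

end H215_GVAS
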