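import Mathlib
import Pool.Agent.H215_GVAS.Kruskal

/-! Reachability sets of one-dimensional grammar vector addition systems. -/

namespace H215_GVAS

variable (g : ContextFreeGrammar ℤ)

/-- The word `w` of integers, applied step by step, leads from `a` to `b` through natural
numbers. -/
def Run (a : ℕ) (w : List ℤ) (b : ℕ) : Prop :=
  (∀ j, j ≤ w.length → 0 ≤ (a : ℤ) + (w.take j).sum) ∧ (a : ℤ) + w.sum = (b : ℤ)

/-- The reachability set from `a` of a one-dimensional grammar vector addition system `g` (a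
context-free grammar whose terminals are integers): the final values of the runs from `a` of the
words generated by `g`. -/
def reachSet (a : ℕ) : Set ℕ := {b | ∃ w ∈ g.language, Run a w b}

/-- Runs of words of symbols. -/
inductive R : List (Symbol ℤ g.NT) → ℕ → ℕ → Prop
  | nil (x : ℕ) : R [] x x
  | tm {z : ℤ} {α : List (Symbol ℤ g.NT)} {x x' y : ℕ} : (x : ℤ) + z = x' → R α x' y →
      R (Symbol.terminal z :: α) x y
  | nt {r : ContextFreeRule ℤ g.NT} {α : List (Symbol ℤ g.NT)} {x m y : ℕ} : r ∈ g.rules →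
      R r.output x m → R α m y → R (Symbol.nonterminal r.input :: α) x y

variable {g}

theorem R.append {u v : List (Symbol ℤ g.NT)} {x m y : ℕ} (h1 : R g u x m) (h2 : R g v m y) :
    R g (u ++ v) x y := by
  induction h1 generalizing y with
  | nil x => exact h2
  | tm hz _ ih => exact R.tm hz (ih h2)
  | nt hr hβ _ _ ih => exact R.nt hr hβ (ih h2)

theorem R.split {u v : List (Symbol ℤ g.NT)} {x y : ℕ} (h : R g (u ++ v) x y) :
    ∃ m, R g u x m ∧ R g v m y := by
  induction u generalizing x with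
  | nil => exact ⟨x, R.nil x, h⟩
  | cons c u ih =>
    rw [List.cons_append] at h
    cases h with
    | tm hz h' =>
      obtain ⟨m, h1, h2⟩ := ih h'
      exact ⟨m, R.tm hz h1, h2⟩
    | nt hr hβ h' =>
      obtain ⟨m, h1, h2⟩ := ih h'
      exact ⟨m, R.nt hr hβ h1, h2⟩

theorem R.shift {u : List (Symbol ℤ g.NT)} {x y : ℕ} (h : R g u x y) (s : ℕ) :
    R g u (x + s) (y + s) := by
  induction h with
  | nil x => exact R.nil _
  | tm hz _ ih => exact R.tm (by push_cast; linarith) ih
  | nt hr _ _ ih1 ih2 => exact R.nt hr ih1 ih2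

theorem R.produces {u v : List (Symbol ℤ g.NT)} (h : g.Produces u v) {x y : ℕ}
    (hv : R g v x y) : R g u x y := by
  obtain ⟨r, hr, hrw⟩ := h
  obtain ⟨p, q, hu, hv'⟩ := hrw.exists_parts
  rw [hv'] at hv
  obtain ⟨m, h1, h2⟩ := hv.split
  obtain ⟨k, h3, h4⟩ := h1.split
  rw [hu]
  exact (h3.append (R.nt hr h4 (R.nil _))).append h2

theorem R.derives {u v : List (Symbol ℤ g.NT)} (h : g.Derives u v) {x y : ℕ}
    (hv : R g v x y) : R g u x y := by
  induction h using Relation.ReflTransGen.head_induction_on with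
  | refl => exact hv
  | head h1 _ ih => exact R.produces h1 ih

theorem run_cons {z : ℤ} {w : List ℤ} {a b : ℕ} :
    Run a (z :: w) b ↔ ∃ a' : ℕ, (a : ℤ) + z = a' ∧ Run a' w b := by
  constructor
  · rintro ⟨h1, h2⟩
    have h0 : 0 ≤ (a : ℤ) + z := by
      have := h1 1 (by simp)
      simpa using this
    refine ⟨((a : ℤ) + z).toNat, (Int.toNat_of_nonneg h0).symm, ?_, ?_⟩
    · intro j hj
      rw [Int.toNat_of_nonneg h0]
      have := h1 (j + 1) (by simpa using hj)
      simp only [List.take_succ_cons, List.sum_cons] at this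
      linarith
    · rw [Int.toNat_of_nonneg h0]
      simp only [List.sum_cons] at h2
      linarith
  · rintro ⟨a', ha, h1, h2⟩
    refine ⟨?_, ?_⟩
    · intro j hj
      cases j with
      | zero => simp
      | succ j =>
        have := h1 j (by simpa using hj)
        simp only [List.take_succ_cons, List.sum_cons]
        linarith
    · simp only [List.sum_cons]
      linarith

theorem R_terminal (w : List ℤ) (a b : ℕ) :
    R g (w.map Symbol.terminal) a b ↔ Run a w b := by
  induction w generalizing a with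
  | nil =>
    constructor
    · intro h
      cases h
      exact ⟨by simp, by simp⟩
    · rintro ⟨_, h⟩
      have : a = b := by simpa using h
      subst this
      exact R.nil _
  | cons z w ih =>
    rw [run_cons]
    constructor
    · intro h
      cases h with
      | tm hz h' => exact ⟨_, hz, (ih _).1 h'⟩
    · rintro ⟨a', hz, h'⟩
      exact R.tm hz ((ih _).2 h')

theorem Run.append (g : ContextFreeGrammar ℤ) {w w' : List ℤ} {a m b : ℕ} (h1 : Run a w m)
    (h2 : Run m w' b) : Run a (w ++ w') b := by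
  rw [← R_terminal (g := g)] at h1 h2 ⊢
  rw [List.map_append]
  exact h1.append h2

theorem R.exists_word {u : List (Symbol ℤ g.NT)} {x y : ℕ} (h : R g u x y) :
    ∃ w : List ℤ, g.Derives u (w.map Symbol.terminal) ∧ Run x w y := by
  induction h with
  | nil x => exact ⟨[], ContextFreeGrammar.Derives.refl _, by simp [Run]⟩
  | @tm z α x x' y hz _ ih =>
    obtain ⟨w, h1, h2⟩ := ih
    refine ⟨z :: w, ?_, run_cons.2 ⟨_, hz, h2⟩⟩
    have := h1.append_left [Symbol.terminal z]
    simpa using this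
  | @nt r α x m y hr _ _ ih1 ih2 =>
    obtain ⟨w1, h1, h1'⟩ := ih1
    obtain ⟨w2, h2, h2'⟩ := ih2
    refine ⟨w1 ++ w2, ?_, Run.append g h1' h2'⟩
    rw [List.map_append]
    have e1 : g.Produces [Symbol.nonterminal r.input] r.output :=
      ⟨r, hr, ContextFreeRule.Rewrites.input_output⟩
    have e2 : g.Derives [Symbol.nonterminal r.input] (w1.map Symbol.terminal) :=
      e1.trans_derives h1
    have e3 : g.Derives ([Symbol.nonterminal r.input] ++ α) (w1.map Symbol.terminal ++ α) :=
      e2.append_right α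
    have e4 := h2.append_left (w1.map Symbol.terminal)
    exact e3.trans e4

theorem reach_iff (a b : ℕ) : b ∈ reachSet g a ↔ R g [Symbol.nonterminal g.initial] a b := by
  constructor
  · rintro ⟨w, h1, h2⟩
    exact R.derives h1 ((R_terminal w a b).2 h2)
  · intro h
    obtain ⟨w, h1, h2⟩ := h.exists_word
    exact ⟨w, h1, h2⟩

/-- Labels of flow trees. -/
structure Lab (g : ContextFreeGrammar ℤ) where
  word : List (Symbol ℤ g.NT)
  out : List (Symbol ℤ g.NT)
  x : ℕ
  m : ℕ
  y : ℕ

/-- `t` is a flow tree of the word `w` from `x` to `y`. -/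
inductive V (g : ContextFreeGrammar ℤ) : BT (Lab g) → List (Symbol ℤ g.NT) → ℕ → ℕ → Prop
  | nil (x : ℕ) : V g (BT.node ⟨[], [], x, x, x⟩ BT.leaf BT.leaf) [] x x
  | tm {z : ℤ} {α : List (Symbol ℤ g.NT)} {x x' y : ℕ} {t : BT (Lab g)} : (x : ℤ) + z = x' →
      V g t α x' y →
      V g (BT.node ⟨Symbol.terminal z :: α, [], x, x', y⟩ BT.leaf t) (Symbol.terminal z :: α) x y
  | nt {r : ContextFreeRule ℤ g.NT} {α : List (Symbol ℤ g.NT)} {x m y : ℕ} {s t : BT (Lab g)} :
      r ∈ g.rules → V g s r.output x m → V g t α m y →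
      V g (BT.node ⟨Symbol.nonterminal r.input :: α, r.output, x, m, y⟩ s t)
        (Symbol.nonterminal r.input :: α) x y

theorem V.toR {t : BT (Lab g)} {w : List (Symbol ℤ g.NT)} {x y : ℕ} (h : V g t w x y) :
    R g w x y := by
  induction h with
  | nil x => exact R.nil _
  | tm hz _ ih => exact R.tm hz ih
  | nt hr _ _ ih1 ih2 => exact R.nt hr ih1 ih2

theorem V.label {t : BT (Lab g)} {w : List (Symbol ℤ g.NT)} {x y : ℕ} (h : V g t w x y) :
    ∃ l a b, t = BT.node l a b ∧ l.word = w ∧ l.x = x ∧ l.y = y := by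
  cases h with
  | nil x => exact ⟨_, _, _, rfl, rfl, rfl, rfl⟩
  | tm hz h => exact ⟨_, _, _, rfl, rfl, rfl, rfl⟩
  | nt hr h1 h2 => exact ⟨_, _, _, rfl, rfl, rfl, rfl⟩

/-- The words that occur in derivations. -/
def W (g : ContextFreeGrammar ℤ) : Set (List (Symbol ℤ g.NT)) :=
  {w | w = [] ∨ w <:+ [Symbol.nonterminal g.initial] ∨ ∃ r ∈ g.rules, w <:+ r.output}

theorem W_finite : (W g).Finite := by
  have h : W g ⊆ {[]} ∪ ({w | w ∈ [Symbol.nonterminal g.initial].tails} ∪
      ⋃ r ∈ (g.rules : Set (ContextFreeRule ℤ g.NT)), {w | w ∈ r.output.tails}) := by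
    intro w hw
    rcases hw with h | h | ⟨r, hr, h⟩
    · exact Or.inl h
    · exact Or.inr (Or.inl ((List.mem_tails _ _).2 h))
    · refine Or.inr (Or.inr ?_)
      simp only [Set.mem_iUnion]
      exact ⟨r, hr, (List.mem_tails _ _).2 h⟩
  refine Set.Finite.subset ?_ h
  refine (Set.finite_singleton _).union ((List.finite_toSet _).union ?_)
  exact Set.Finite.biUnion g.rules.finite_toSet (fun r _ => List.finite_toSet _)

theorem W_tail {c : Symbol ℤ g.NT} {α : List (Symbol ℤ g.NT)} (h : c :: α ∈ W g) : α ∈ W g := by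
  have hs : α <:+ c :: α := List.suffix_cons c α
  rcases h with h | h | ⟨r, hr, h⟩
  · exact absurd h (by simp)
  · exact Or.inr (Or.inl (hs.trans h))
  · exact Or.inr (Or.inr ⟨r, hr, hs.trans h⟩)

theorem W_output {r : ContextFreeRule ℤ g.NT} (h : r ∈ g.rules) : r.output ∈ W g :=
  Or.inr (Or.inr ⟨r, h, List.suffix_rfl⟩)

/-- The admissible labels. -/
def Ls (g : ContextFreeGrammar ℤ) : Set (Lab g) := {l | l.word ∈ W g ∧ l.out ∈ W g}

theorem R.exists_tree {w : List (Symbol ℤ g.NT)} {x y : ℕ} (h : R g w x y) (hw : w ∈ W g) :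
    ∃ t : BT (Lab g), V g t w x y ∧ t.All (Ls g) := by
  induction h with
  | nil x => exact ⟨_, V.nil x, ⟨hw, Or.inl rfl⟩, trivial, trivial⟩
  | tm hz _ ih =>
    obtain ⟨t, h1, h2⟩ := ih (W_tail hw)
    exact ⟨_, V.tm hz h1, ⟨hw, Or.inl rfl⟩, trivial, h2⟩
  | nt hr _ _ ih1 ih2 =>
    obtain ⟨s, h1, h1'⟩ := ih1 (W_output hr)
    obtain ⟨t, h2, h2'⟩ := ih2 (W_tail hw)
    exact ⟨_, V.nt hr h1 h2, ⟨hw, W_output hr⟩, h1', h2'⟩

/-- The order on labels. -/
def le (l l' : Lab g) : Prop :=
  l.word = l'.word ∧ l.out = l'.out ∧ l.x ≤ l'.x ∧ l.m ≤ l'.m ∧ l.y ≤ l'.y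

theorem le_refl' (l : Lab g) : le l l := ⟨rfl, rfl, le_rfl, le_rfl, le_rfl⟩

theorem le_trans' (l₁ l₂ l₃ : Lab g) (h : le l₁ l₂) (h' : le l₂ l₃) : le l₁ l₃ :=
  ⟨h.1.trans h'.1, h.2.1.trans h'.2.1, h.2.2.1.trans h'.2.2.1, h.2.2.2.1.trans h'.2.2.2.1,
    h.2.2.2.2.trans h'.2.2.2.2⟩

theorem le_pwo : (Ls g).PartiallyWellOrderedOn (le (g := g)) := by
  rw [Set.partiallyWellOrderedOn_iff_exists_lt]
  intro f hf
  have : Finite (W g) := W_finite.to_subtype
  have : IsPreorder (W g × W g) (Eq) := { refl := fun _ => rfl, trans := fun _ _ _ => Eq.trans }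
  have h1 : WellQuasiOrdered (Eq (α := W g × W g)) := Finite.wellQuasiOrdered _
  have h2 : WellQuasiOrdered (fun a b : ℕ × ℕ × ℕ => a ≤ b) := wellQuasiOrdered_le
  have h3 := h1.prod h2
  obtain ⟨m, n, hmn, h⟩ := h3 (fun n => ((⟨(f n).word, (hf n).1⟩, ⟨(f n).out, (hf n).2⟩),
    ((f n).x, (f n).m, (f n).y)))
  refine ⟨m, n, hmn, ?_⟩
  have e1 := congrArg (fun p : W g × W g => (p.1 : List (Symbol ℤ g.NT))) h.1
  have e2 := congrArg (fun p : W g × W g => (p.2 : List (Symbol ℤ g.NT))) h.1
  exact ⟨e1, e2, h.2.1, h.2.2.1, h.2.2.2⟩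

variable (g) in
/-- Contexts: a flow of `w` from `u'` to `v'` can be completed to a flow from `u` to `v`, and the
same with every shift. -/
def K (w : List (Symbol ℤ g.NT)) (u v u' v' : ℕ) : Prop :=
  ∀ s t : ℕ, R g w (u' + s) (v' + t) → R g w (u + s) (v + t)

/-- The pumps of a flow tree. -/
def P : BT (Lab g) → ℕ → ℕ → Prop
  | BT.leaf => fun p q => p = q
  | BT.node l a b => fun p q => ∃ p' q', (∃ r, P a p' r ∧ P b r q') ∧
      K g l.word (l.x + p) (l.y + q) (l.x + p') (l.y + q')

theorem P_zero (t : BT (Lab g)) : P t 0 0 := by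
  induction t with
  | leaf => rfl
  | node l a b iha ihb => exact ⟨0, 0, ⟨0, iha, ihb⟩, fun s t h => h⟩

theorem P_add (t : BT (Lab g)) {p₁ q₁ p₂ q₂ : ℕ} (h1 : P t p₁ q₁) (h2 : P t p₂ q₂) :
    P t (p₁ + p₂) (q₁ + q₂) := by
  induction t generalizing p₁ q₁ p₂ q₂ with
  | leaf =>
    have e1 : p₁ = q₁ := h1
    have e2 : p₂ = q₂ := h2
    subst e1
    subst e2
    rfl
  | node l a b iha ihb =>
    obtain ⟨p₁', q₁', ⟨r₁, ha1, hb1⟩, hK1⟩ := h1
    obtain ⟨p₂', q₂', ⟨r₂, ha2, hb2⟩, hK2⟩ := h2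
    refine ⟨p₁' + p₂', q₁' + q₂', ⟨r₁ + r₂, iha ha1 ha2, ihb hb1 hb2⟩, ?_⟩
    intro s t h
    have h3 := hK2 (p₁' + s) (q₁' + t) (by
      convert h using 1 <;> omega)
    have h4 := hK1 (p₂ + s) (q₂ + t) (by
      convert h3 using 1 <;> omega)
    convert h4 using 1 <;> omega

theorem P_sound {t : BT (Lab g)} {w : List (Symbol ℤ g.NT)} {x y : ℕ} (h : V g t w x y)
    {p q : ℕ} (hP : P t p q) : R g w (x + p) (y + q) := by
  induction h generalizing p q with
  | nil x =>
    obtain ⟨p', q', ⟨r, h1, h2⟩, hK⟩ := hP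
    have e1 : p' = r := h1
    have e2 : r = q' := h2
    have := hK 0 0 (by
      rw [e1, e2]
      exact R.nil _)
    simpa using this
  | tm hz hV ih =>
    obtain ⟨p', q', ⟨r, h1, h2⟩, hK⟩ := hP
    have e1 : p' = r := h1
    have h3 := ih h2
    have := hK 0 0 (by
      refine R.tm ?_ h3
      rw [e1]
      push_cast
      linarith)
    simpa using this
  | nt hr _ _ ih1 ih2 =>
    obtain ⟨p', q', ⟨r, h1, h2⟩, hK⟩ := hP
    have := hK 0 0 (R.nt hr (ih1 h1) (ih2 h2))
    simpa using this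

/-- The pumps at the lower end of the context at the root. -/
def Q : BT (Lab g) → ℕ → ℕ → Prop
  | BT.leaf => fun _ _ => False
  | BT.node _ a b => fun p q => ∃ r, P a p r ∧ P b r q

theorem P_of_Q {t : BT (Lab g)} {w : List (Symbol ℤ g.NT)} {x y : ℕ} (h : V g t w x y)
    {p q p' q' : ℕ} (hQ : Q t p' q') (hK : K g w (x + p) (y + q) (x + p') (y + q')) :
    P t p q := by
  obtain ⟨l, a, b, rfl, rfl, rfl, rfl⟩ := h.label
  exact ⟨p', q', hQ, hK⟩

theorem not_V_leaf {w : List (Symbol ℤ g.NT)} {x y : ℕ} (h : V g BT.leaf w x y) : False := by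
  cases h

theorem Emb.of_leaf {L : Type} {r : L → L → Prop} {t : BT L} (h : Emb r t BT.leaf) :
    t = BT.leaf := by
  cases h
  rfl

theorem emb_pump {t t' : BT (Lab g)} (h : Emb le t t') :
    ∀ {w w' : List (Symbol ℤ g.NT)} {x y x' y' : ℕ}, V g t w x y → V g t' w' x' y' →
    ∃ p q, Q t p q ∧ ∀ s u : ℕ, R g w (x + p + s) (y + q + u) → R g w' (x' + s) (y' + u) := by
  induction h with
  | leaf t' =>
    intro w w' x y x' y' hV hV'
    exact absurd hV (fun h => not_V_leaf h)
  | @hom l l' a a' b b' hl ha hb iha ihb =>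
    intro w w' x y x' y' hV hV'
    obtain ⟨h1, h2, h3, h4, h5⟩ := hl
    cases hV with
    | nil x =>
      cases hV' with
      | nil x' =>
        refine ⟨x' - x, x' - x, ⟨x' - x, rfl, rfl⟩, ?_⟩
        intro s u hR
        have h3' : x ≤ x' := h3
        have e : x + (x' - x) = x' := by omega
        rw [e] at hR
        exact hR
      | tm hz h' => exact absurd h1 (by simp)
      | nt hr h' h'' => exact absurd h1 (by simp)
    | @tm z α x x1 y t0 hz hV0 =>
      cases hV' with
      | nil x' => exact absurd h1 (by simp)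
      | @tm z' α' x' x1' y' t0' hz' hV0' =>
        simp only [List.cons.injEq, Symbol.terminal.injEq] at h1
        obtain ⟨rfl, rfl⟩ := h1
        simp only at h3 h4 h5
        obtain ⟨p0, q0, hQ, hR0⟩ := ihb hV0 hV0'
        have hP : P b (x' - x) (y' - y) := by
          refine P_of_Q hV0 hQ ?_
          intro s u hR
          have e1 : x1 + (x' - x) = x1' := by omega
          have e2 : y + (y' - y) = y' := by omega
          rw [e1, e2]
          exact hR0 s u hR
        refine ⟨x' - x, y' - y, ⟨x' - x, rfl, hP⟩, ?_⟩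
        intro s u hR
        have e1 : x + (x' - x) = x' := by omega
        have e2 : y + (y' - y) = y' := by omega
        rw [e1, e2] at hR
        exact hR
      | nt hr h' h'' => exact absurd h1 (by simp)
    | @nt r α x m y s0 t0 hr hVs hVt =>
      cases hV' with
      | nil x' => exact absurd h1 (by simp)
      | tm hz h' => exact absurd h1 (by simp)
      | @nt r' α' x' m' y' s0' t0' hr' hVs' hVt' =>
        simp only [List.cons.injEq, Symbol.nonterminal.injEq] at h1
        obtain ⟨h1a, rfl⟩ := h1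
        simp only at h2 h3 h4 h5
        rw [← h2] at hVs'
        obtain ⟨p1, q1, hQ1, hR1⟩ := iha hVs hVs'
        obtain ⟨p2, q2, hQ2, hR2⟩ := ihb hVt hVt'
        have e1 : x + (x' - x) = x' := by omega
        have e2 : m + (m' - m) = m' := by omega
        have e3 : y + (y' - y) = y' := by omega
        have hP1 : P a (x' - x) (m' - m) := by
          refine P_of_Q hVs hQ1 ?_
          intro s u hR
          rw [e1, e2]
          exact hR1 s u hR
        have hP2 : P b (m' - m) (y' - y) := by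
          refine P_of_Q hVt hQ2 ?_
          intro s u hR
          rw [e2, e3]
          exact hR2 s u hR
        refine ⟨x' - x, y' - y, ⟨m' - m, hP1, hP2⟩, ?_⟩
        intro s u hR
        rw [e1, e3] at hR
        rw [← h1a]
        exact hR
  | @left t a' b' l' hE ih =>
    intro w w' x y x' y' hV hV'
    cases hV' with
    | nil x' =>
      rw [hE.of_leaf] at hV
      exact absurd hV (fun h => not_V_leaf h)
    | tm hz h' =>
      rw [hE.of_leaf] at hV
      exact absurd hV (fun h => not_V_leaf h)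
    | @nt r' α' x' m' y' s0' t0' hr' hVs' hVt' =>
      obtain ⟨p, q, hQ, hR⟩ := ih hV hVs'
      refine ⟨p, q, hQ, ?_⟩
      intro s u h
      exact R.nt hr' (hR s u h) (hVt'.toR.shift u)
  | @right t a' b' l' hE ih =>
    intro w w' x y x' y' hV hV'
    cases hV' with
    | nil x' =>
      rw [hE.of_leaf] at hV
      exact absurd hV (fun h => not_V_leaf h)
    | @tm z' α' x' x1' y' t0' hz' hV0' =>
      obtain ⟨p, q, hQ, hR⟩ := ih hV hV0'
      refine ⟨p, q, hQ, ?_⟩
      intro s u h
      exact R.tm (by push_cast; linarith) (hR s u h)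
    | @nt r' α' x' m' y' s0' t0' hr' hVs' hVt' =>
      obtain ⟨p, q, hQ, hR⟩ := ih hV hVt'
      refine ⟨p, q, hQ, ?_⟩
      intro s u h
      exact R.nt hr' (hVs'.toR.shift s) (hR s u h)

end H215_GVAS
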