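import Mathlib
import Pool.Agent.H215_GVAS.Main

namespace H215_GVAS

theorem semilinear_of_closed {S : Set ℕ} {p : ℕ} (hp : 0 < p) (h : ∀ x ∈ S, x + p ∈ S) :
    IsSemilinearSet S := by
  classical
  rw [Nat.isSemilinearSet_iff_ultimately_periodic]
  have hmul : ∀ n x, x ∈ S → x + n * p ∈ S := by
    intro n
    induction n with
    | zero => intro x hx; simpa using hx
    | succ n ih =>
      intro x hx
      have := h _ (ih x hx)
      convert this using 1
      ring
  -- least elements of the classes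
  let c : ℕ → ℕ := fun i => if hi : ∃ x, x ∈ S ∧ x % p = i then Nat.find hi else 0
  refine ⟨(Finset.range p).sup c, p, hp, ?_⟩
  intro x hx
  constructor
  · intro hxS
    exact h x hxS
  · intro hxp
    have hex : ∃ y, y ∈ S ∧ y % p = x % p := ⟨x + p, hxp, by simp⟩
    have hc : c (x % p) = Nat.find hex := by
      simp only [c]
      rw [dif_pos hex]
    have hle : c (x % p) ≤ x :=
      (Finset.le_sup (f := c) (Finset.mem_range.2 (Nat.mod_lt x hp))).trans hx
    obtain ⟨h1, h2⟩ := Nat.find_spec hex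
    rw [← hc] at h1 h2
    have hdvd : p ∣ x - c (x % p) := (Nat.modEq_iff_dvd' hle).1 h2
    obtain ⟨n, hn⟩ := hdvd
    have hx' : x = c (x % p) + n * p := by
      rw [mul_comm n p, ← hn]
      omega
    rw [hx']
    exact hmul n _ h1

theorem semilinear_shift (M : AddSubmonoid ℕ) (b : ℕ) :
    IsSemilinearSet {y : ℕ | ∃ q ∈ M, y = b + q} := by
  by_cases hM : ∃ p ∈ M, 0 < p
  · obtain ⟨p, hp, hp0⟩ := hM
    refine semilinear_of_closed hp0 ?_
    rintro x ⟨q, hq, rfl⟩
    exact ⟨q + p, M.add_mem hq hp, by ring⟩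
  · refine IsSemilinearSet.of_finite ((Set.finite_singleton b).subset ?_)
    rintro y ⟨q, hq, rfl⟩
    have : q = 0 := by
      by_contra h0
      exact hM ⟨q, hq, Nat.pos_of_ne_zero h0⟩
    simp [this]

/-- The set of final values is semilinear. -/
theorem semilinear_R (g : ContextFreeGrammar ℤ) (w : List (Symbol ℤ g.NT)) (hw : w ∈ W g)
    (a : ℕ) : IsSemilinearSet {b : ℕ | R g w a b} := by
  classical
  by_contra hcon
  have hT : ∀ b, R g w a b → ∃ t : BT (Lab g), V g t w a b ∧ t.All (Ls g) :=
    fun b hb => hb.exists_tree hw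
  let T : ℕ → BT (Lab g) := fun b => if hb : R g w a b then (hT b hb).choose else BT.leaf
  have hTV : ∀ b, R g w a b → V g (T b) w a b ∧ (T b).All (Ls g) := by
    intro b hb
    simp only [T]
    rw [dif_pos hb]
    exact (hT b hb).choose_spec
  let M : ℕ → AddSubmonoid ℕ := fun b =>
    { carrier := {q | P (T b) 0 q}
      zero_mem' := P_zero _
      add_mem' := fun {q₁ q₂} h1 h2 => P_add (T b) (p₁ := 0) (p₂ := 0) h1 h2 }
  let B : ℕ → Set ℕ := fun b => {y : ℕ | ∃ q ∈ M b, y = b + q}
  have hB : ∀ b, R g w a b → B b ⊆ {b | R g w a b} := by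
    rintro b hb y ⟨q, hq, rfl⟩
    exact P_sound (hTV b hb).1 (p := 0) hq
  obtain ⟨f, hf1, hf2⟩ := exists_seq_of_forall_finset_exists (fun b => R g w a b)
    (fun b b' => b' ∉ B b) (by
      intro s hs
      by_contra hno
      push Not at hno
      apply hcon
      have heq : {b : ℕ | R g w a b} = ⋃ i ∈ s, B i := by
        apply Set.Subset.antisymm
        · intro b hb
          obtain ⟨x, hx, hxb⟩ := hno b hb
          simp only [Set.mem_iUnion]
          exact ⟨x, hx, hxb⟩
        · intro b hb
          simp only [Set.mem_iUnion] at hb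
          obtain ⟨x, hx, hxb⟩ := hb
          exact hB x (hs x hx) hxb
      rw [heq]
      exact IsSemilinearSet.biUnion_finset (fun i _ => semilinear_shift (M i) i))
  have : IsPreorder (BT (Lab g)) (Emb le) :=
    { refl := Emb.refl le_refl', trans := fun _ _ _ => Emb.trans le_trans' }
  have hk := kruskal (le (g := g)) le_refl' le_trans' (Ls g) le_pwo
  obtain ⟨e, he⟩ := hk.exists_monotone_subseq (f := fun n => T (f n)) (fun n => (hTV _ (hf1 n)).2)
  obtain ⟨m, n, hmn, hle⟩ := (wellQuasiOrdered_le : WellQuasiOrdered (α := ℕ) (· ≤ ·))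
    (fun n => f (e n))
  have hle' : f (e m) ≤ f (e n) := hle
  refine hf2 (e m) (e n) (e.strictMono hmn) ⟨f (e n) - f (e m), ?_, ?_⟩
  · obtain ⟨p, q, hQ, hR⟩ := emb_pump (he m n hmn.le) (hTV _ (hf1 (e m))).1 (hTV _ (hf1 (e n))).1
    refine P_of_Q (hTV _ (hf1 (e m))).1 hQ ?_
    intro s u h
    have e1 : f (e m) + (f (e n) - f (e m)) = f (e n) := by omega
    rw [e1, Nat.add_zero]
    exact hR s u h
  · omega

/-- Every reachability set of a one-dimensional grammar vector addition system is semilinear. -/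
theorem semilinear_reach (g : ContextFreeGrammar ℤ) (a : ℕ) :
    IsSemilinearSet (reachSet g a) := by
  have h : reachSet g a = {b : ℕ | R g [Symbol.nonterminal g.initial] a b} := by
    ext b
    exact reach_iff _ _
  rw [h]
  exact semilinear_R g _ (Or.inr (Or.inl List.suffix_rfl)) a

end H215_GVAS
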